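import Pool.Agent.U140.FM.Def2
import Pool.Agent.U261.FM.FA
import Pool.Agent.U261.FM.FB
import Pool.Agent.U261.FM.FC

set_option autoImplicit false

/-!
Project FM (frog model on the 4-ary tree), job T (helper411): the tree induction.
-/

namespace Pool.Agent.U140.FM

open Finset
open scoped BigOperators

namespace PkgT

/-! ### sets of vertices -/

lemma mem_conf (v x : Vt) (t : Fin 7) : x ∈ conf v t ↔ ∃ p : List (Fin 4), x = p.reverse ++ v ∧ sl t p :=
  Iff.rfl

lemma mem_below (v x : Vt) : x ∈ below v ↔ v <:+ x := Iff.rfl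

lemma conf_sub (v : Vt) (t : Fin 7) : conf v t ⊆ below v := by
  rintro x ⟨p, rfl, _⟩
  exact List.suffix_append _ _

lemma sl_zero (p : List (Fin 4)) : sl 0 p := by
  cases p with
  | nil => simp [sl]
  | cons a p => simp [sl]

lemma conf_zero (v : Vt) : conf v 0 = below v := by
  apply Set.Subset.antisymm (conf_sub v 0)
  rintro x ⟨l, rfl⟩
  exact ⟨l.reverse, by simp, sl_zero _⟩

lemma conf_ne (v : Vt) (t : Fin 7) (ht : t ≠ 0) : conf v t = ⋃ i, conf (i :: v) (rep t i) := by
  ext x
  simp only [Set.mem_iUnion, mem_conf]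
  constructor
  · rintro ⟨p, rfl, hp⟩
    cases p with
    | nil => exact absurd hp ht
    | cons a p =>
      refine ⟨a, p, by simp, ?_⟩
      rcases hp with h | h
      · exact absurd h ht
      · exact h
  · rintro ⟨i, p, rfl, hp⟩
    exact ⟨i :: p, by simp, Or.inr hp⟩

lemma self_mem_below (v : Vt) : v ∈ below v := List.suffix_rfl

lemma length_le_of_below {v x : Vt} (h : x ∈ below v) : v.length ≤ x.length := List.IsSuffix.length_le h

lemma not_below_child (v : Vt) (i : Fin 4) : v ∉ below (i :: v) := by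
  intro h
  have := length_le_of_below h
  simp at this

lemma not_below_tail (v : Vt) (hv : v ≠ []) : v.tail ∉ below v := by
  intro h
  have := length_le_of_below h
  have h1 := List.length_tail (l := v)
  have h2 : 0 < v.length := List.length_pos_iff.2 hv
  omega

lemma tail_not_below_child (v : Vt) (i : Fin 4) : v.tail ∉ below (i :: v) := by
  intro h
  have := length_le_of_below h
  have h1 := List.length_tail (l := v)
  simp only [List.length_cons] at this
  omega

lemma child_below (v : Vt) (i : Fin 4) : below (i :: v) ⊆ below v := by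
  intro x hx
  exact (List.suffix_cons i v).trans hx

lemma child_disj {v x : Vt} {i j : Fin 4} (h1 : x ∈ below (i :: v)) (h2 : x ∈ below (j :: v)) : i = j := by
  have h := List.suffix_of_suffix_length_le h1 h2 (by simp)
  have h3 := h.eq_of_length (by simp)
  exact (List.cons.inj h3).1

lemma below_split {v x : Vt} (h : x ∈ below v) (hx : x ≠ v) : ∃ i, x ∈ below (i :: v) := by
  obtain ⟨l, rfl⟩ := h
  rcases List.eq_nil_or_concat l with rfl | ⟨l', a, rfl⟩
  · exact absurd rfl hx
  · exact ⟨a, l', by simp⟩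

/-- the configuration: `Z` outside of the subtree of `v`, `v` visited, children of the types `c` -/
def Hs (v : Vt) (Z : Set Vt) (c : Fin 4 → Fin 7) : Set Vt := Z \ below v ∪ ⋃ i, conf (i :: v) (c i)

lemma mem_Hs (v : Vt) (Z : Set Vt) (c : Fin 4 → Fin 7) (x : Vt) :
    x ∈ Hs v Z c ↔ (x ∈ Z ∧ x ∉ below v) ∨ ∃ i, x ∈ conf (i :: v) (c i) := by
  simp [Hs]

lemma self_notMem_Hs (v : Vt) (Z : Set Vt) (c : Fin 4 → Fin 7) : v ∉ Hs v Z c := by
  rw [mem_Hs]
  rintro (⟨_, h⟩ | ⟨i, h⟩)
  · exact h (self_mem_below v)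
  · exact not_below_child v i (conf_sub _ _ h)

lemma tail_notMem_Hs (v : Vt) (Z : Set Vt) (c : Fin 4 → Fin 7) (h : v.tail ∉ Z) : v.tail ∉ Hs v Z c := by
  rw [mem_Hs]
  rintro (⟨h1, _⟩ | ⟨i, h1⟩)
  · exact h h1
  · exact tail_not_below_child v i (conf_sub _ _ h1)

lemma Hs_inter (v : Vt) (Z : Set Vt) (c : Fin 4 → Fin 7) (i : Fin 4) :
    Hs v Z c ∩ below (i :: v) = conf (i :: v) (c i) := by
  ext x
  rw [Set.mem_inter_iff, mem_Hs]
  constructor
  · rintro ⟨⟨_, h⟩ | ⟨j, h⟩, h2⟩
    · exact absurd (child_below v i h2) h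
    · have := child_disj (conf_sub _ _ h) h2
      subst this
      exact h
  · intro h
    exact ⟨Or.inr ⟨i, h⟩, conf_sub _ _ h⟩

lemma Hs_update (v : Vt) (Z : Set Vt) (c : Fin 4 → Fin 7) (i : Fin 4) (u : Fin 7) :
    Hs v Z c \ below (i :: v) ∪ conf (i :: v) u = Hs v Z (Function.update c i u) := by
  ext x
  rw [Set.mem_union, Set.mem_sdiff, mem_Hs, mem_Hs]
  constructor
  · rintro (⟨h | ⟨j, h⟩, h2⟩ | h)
    · exact Or.inl h
    · right
      refine ⟨j, ?_⟩
      have hj : j ≠ i := by
        rintro rfl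
        exact h2 (conf_sub _ _ h)
      rw [Function.update_of_ne hj]
      exact h
    · right
      refine ⟨i, ?_⟩
      rw [Function.update_self]
      exact h
  · rintro (⟨h1, h2⟩ | ⟨j, h⟩)
    · exact Or.inl ⟨Or.inl ⟨h1, h2⟩, fun h3 => h2 (child_below v i h3)⟩
    · by_cases hj : j = i
      · subst hj
        rw [Function.update_self] at h
        exact Or.inr h
      · rw [Function.update_of_ne hj] at h
        refine Or.inl ⟨Or.inr ⟨j, h⟩, fun h3 => hj (child_disj (conf_sub _ _ h) h3)⟩

/-! ### the functional -/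

lemma rt_nonneg (v : Vt) : 0 ≤ rt v := by unfold rt; split_ifs <;> norm_num

lemma rt_le_one (v : Vt) : rt v ≤ 1 := by unfold rt; split_ifs <;> norm_num

lemma rt_ne {v : Vt} (hv : v ≠ []) : rt v = 0 := by unfold rt; rw [if_neg hv]

lemma mem_ball (n : ℕ) (v : Vt) : v ∈ ball n ↔ v.length ≤ n := by
  unfold ball
  rw [Set.Finite.mem_toFinset]
  rfl

lemma FT_perm (n K : ℕ) {O O' : List Vt} (h : O.Perm O') (Z : Set Vt) : FT n K O Z = FT n K O' Z :=
  F_perm (stepT n) rt K (ball n) h Z

lemma FT_mono_cons (n K : ℕ) (x : Vt) (O : List Vt) (Z : Set Vt) : FT n K O Z ≤ FT n K (x :: O) Z :=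
  F_mono_cons (stepT n) rt K (ball n) rt_nonneg x O Z

lemma FT_mono_set (n K : ℕ) (O : List Vt) {Z Z' : Set Vt} (h : Z ⊆ Z') : FT n K O Z ≤ FT n K O Z' :=
  F_mono_set (stepT n) rt K (ball n) rt_nonneg O (fun _ _ hv => h hv)

lemma FT_sub (n K : ℕ) (a b : Vt) (O : List Vt) (Z : Set Vt) :
    FT n K (a :: b :: O) Z + FT n K O Z ≤ FT n K (a :: O) Z + FT n K (b :: O) Z :=
  F_sub (stepT n) rt K (ball n) rt_nonneg a b O Z

lemma FT_nil (n K : ℕ) (Z : Set Vt) : FT n K [] Z = 0 := F_nil (stepT n) rt K (ball n) Z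

lemma FT_nonneg (n K : ℕ) (O : List Vt) (Z : Set Vt) : 0 ≤ FT n K O Z :=
  F_nonneg (stepT n) rt K (ball n) rt_nonneg O Z

lemma FT_replicate_mono (n K : ℕ) (x : Vt) (j : ℕ) (O : List Vt) (Z : Set Vt) :
    FT n K O Z ≤ FT n K (List.replicate j x ++ O) Z := by
  induction j with
  | zero => simp
  | succ j ih =>
    rw [List.replicate_succ, List.cons_append]
    exact ih.trans (FT_mono_cons n K x _ Z)

lemma FT_replicate_le (n K : ℕ) (x : Vt) (j : ℕ) (O : List Vt) (Z : Set Vt) :
    FT n K (List.replicate j x ++ O) Z ≤ FT n K O Z + j * ((((ball n).card : ℝ) + 1) * K) := by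
  induction j with
  | zero => simp
  | succ j ih =>
    rw [List.replicate_succ, List.cons_append]
    have h := F_cons_le (stepT n) rt K (ball n) rt_nonneg rt_le_one x (List.replicate j x ++ O) Z
    have h2 : FT n K (x :: (List.replicate j x ++ O)) Z ≤
      FT n K (List.replicate j x ++ O) Z + (((ball n).card : ℝ) + 1) * K := h
    push_cast
    linarith

/-- one step -/
lemma FT_step (n K : ℕ) (x : Vt) (O : List Vt) (Z : Set Vt) :
    FT n K (x :: O) Z ≤ avg fun a : Mv => rt (stepT n x a) + arr n K (stepT n x a) O Z := by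
  have h := F_step (stepT n) rt K (ball n) rt_nonneg x O Z
  refine le_trans h (le_of_eq ?_)
  congr 1

lemma avg_Mv (f : Mv → ℝ) : avg f = (∑ i : Fin 4, ∑ b : Fin 5, f (i, b)) / 20 := by
  unfold avg
  rw [Fintype.sum_prod_type]
  simp [Fintype.card_prod]

lemma stepT_in (n : ℕ) (v : Vt) (hv : v ≠ []) (hn : v.length ≤ n) (i : Fin 4) (b : Fin 5) :
    stepT n v (i, b) = if b = 0 then v.tail else i :: v := by
  unfold stepT
  rw [if_neg (by omega), if_neg hv]

lemma stepT_root (n : ℕ) (i : Fin 4) (b : Fin 5) : stepT n [] (i, b) = [i] := by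
  simp [stepT]

lemma FT_step_in (n K : ℕ) (v : Vt) (hv : v ≠ []) (hn : v.length ≤ n) (O : List Vt) (Z : Set Vt) :
    FT n K (v :: O) Z ≤ (1 / 5) * (rt v.tail + arr n K v.tail O Z) +
      (1 / 5) * ∑ i : Fin 4, arr n K (i :: v) O Z := by
  refine (FT_step n K v O Z).trans (le_of_eq ?_)
  rw [avg_Mv]
  simp only [stepT_in n v hv hn]
  have h : ∀ i : Fin 4, ∑ b : Fin 5, (rt (if b = 0 then v.tail else i :: v) +
      arr n K (if b = 0 then v.tail else i :: v) O Z) =
      (rt v.tail + arr n K v.tail O Z) + 4 * arr n K (i :: v) O Z := by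
    intro i
    rw [Fin.sum_univ_succ]
    have h0 : rt (i :: v) = 0 := rt_ne (by simp)
    simp [Fin.succ_ne_zero, h0]
  rw [Finset.sum_congr rfl (fun i _ => h i), Finset.sum_add_distrib, ← Finset.mul_sum]
  simp only [Finset.sum_const, Finset.card_univ, Fintype.card_fin, nsmul_eq_mul]
  push_cast
  ring

lemma FT_step_root (n K : ℕ) (O : List Vt) (Z : Set Vt) :
    FT n K ([] :: O) Z ≤ (1 / 4) * ∑ i : Fin 4, arr n K [i] O Z := by
  refine (FT_step n K [] O Z).trans (le_of_eq ?_)
  rw [avg_Mv]
  simp only [stepT_root n]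
  have h : ∀ i : Fin 4, ∑ b : Fin 5, (rt ([i] : Vt) + arr n K [i] O Z) = 5 * arr n K [i] O Z := by
    intro i
    have h0 : rt ([i] : Vt) = 0 := rt_ne (by simp)
    simp [h0]
  rw [Finset.sum_congr rfl (fun i _ => h i), ← Finset.mul_sum]
  ring

/-- the functional does not see sites outside of the ball -/
lemma FT_congr (n K : ℕ) (O : List Vt) {Z Z' : Set Vt} (h : ∀ v : Vt, v.length ≤ n → (v ∈ Z ↔ v ∈ Z')) :
    FT n K O Z = FT n K O Z' := by
  apply le_antisymm
  · exact F_mono_set (stepT n) rt K (ball n) rt_nonneg O (fun v hv hz => (h v ((mem_ball n v).1 hv)).1 hz)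
  · exact F_mono_set (stepT n) rt K (ball n) rt_nonneg O (fun v hv hz => (h v ((mem_ball n v).1 hv)).2 hz)

lemma arr_out (n K : ℕ) (v : Vt) (O : List Vt) (Z : Set Vt) (h : v ∉ Z) : arr n K v O Z = FT n K (v :: O) Z := by
  unfold arr
  rw [if_neg (fun h2 => h h2.2)]

lemma arr_in (n K : ℕ) (v : Vt) (O : List Vt) (Z : Set Vt) (h : v ∈ Z) (hn : v.length ≤ n) :
    arr n K v O Z = FT n K (v :: v :: O) (Z \ {v}) := by
  unfold arr
  rw [if_pos ⟨(mem_ball n v).2 hn, h⟩]

lemma arr_boundary (n K : ℕ) (v : Vt) (O : List Vt) (Z : Set Vt) (hn : v.length = n + 1) :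
    arr n K v O Z = FT n K O Z := by
  have hb : v ∉ ball n := by rw [mem_ball]; omega
  have hv : v ≠ [] := by rintro rfl; simp at hn
  unfold arr
  rw [if_neg (fun h2 => hb h2.1)]
  refine F_dead (stepT n) rt K (ball n) v O Z (fun a => ?_) (fun h => hb h.1) (rt_ne hv)
  unfold stepT
  rw [if_pos (by omega)]

/-! ### the two families -/

/-- `m` frogs at `v`, `e` frogs sent to the parent, children of the types `c` -/
noncomputable def HH (n K : ℕ) (v : Vt) (O : List Vt) (Z : Set Vt) (m e : ℕ) (c : Fin 4 → Fin 7) : ℝ :=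
  FT n K (List.replicate m v ++ (List.replicate e v.tail ++ O)) (Hs v Z c) + e * rt v.tail

/-- `e` frogs sent to the parent, `v` of the type `u` -/
noncomputable def GG (n K : ℕ) (v : Vt) (O : List Vt) (Z : Set Vt) (e : ℕ) (u : Fin 7) : ℝ :=
  FT n K (List.replicate e v.tail ++ O) (Z \ below v ∪ conf v u) + e * rt v.tail

lemma sum_wt {wt : Fin 7 → ℕ → Fin 7 → ℝ} (W : Wts wt) (t : Fin 7) (a : ℝ) :
    ∑ j ∈ range 4, ∑ u : Fin 7, wt t j u * a = a := by
  have h := W.sum t
  calc ∑ j ∈ range 4, ∑ u : Fin 7, wt t j u * a = (∑ j ∈ range 4, ∑ u : Fin 7, wt t j u) * a := by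
        rw [Finset.sum_mul]
        apply Finset.sum_congr rfl
        intro j _
        rw [Finset.sum_mul]
    _ = a := by rw [h, one_mul]

lemma rep_append (m j : ℕ) (v : Vt) (R : List Vt) :
    List.replicate j v ++ (List.replicate m v ++ R) = List.replicate (m + j) v ++ R := by
  rw [← List.append_assoc, ← List.replicate_add, Nat.add_comm]

/-- the induction hypothesis at the children of `v` -/
def IH (wt : Fin 7 → ℕ → Fin 7 → ℝ) (n K : ℕ) (v : Vt) : Prop :=
  ∀ (i : Fin 4) (O' : List Vt) (Z' : Set Vt) (t' : Fin 7), (∀ x ∈ O', x ∉ below (i :: v)) → v ∉ Z' →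
    Z' ∩ below (i :: v) = conf (i :: v) t' →
    arr n K (i :: v) O' Z' ≤ ∑ j ∈ range 4, ∑ u : Fin 7, wt t' j u *
      (FT n K (List.replicate j v ++ O') (Z' \ below (i :: v) ∪ conf (i :: v) u) + j * rt v)

lemma notBelow_list (v : Vt) (O : List Vt) (hO : ∀ x ∈ O, x ∉ below v) (m e : ℕ) (i : Fin 4) :
    ∀ x ∈ List.replicate m v ++ (List.replicate e v.tail ++ O), x ∉ below (i :: v) := by
  intro x hx
  rcases List.mem_append.1 hx with h | h
  · rw [List.eq_of_mem_replicate h]
    exact not_below_child v i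
  · rcases List.mem_append.1 h with h | h
    · rw [List.eq_of_mem_replicate h]
      exact tail_not_below_child v i
    · exact fun h2 => hO x h (child_below v i h2)

lemma HH_step {wt : Fin 7 → ℕ → Fin 7 → ℝ} (W : Wts wt) (n K : ℕ) (v : Vt) (hv : v ≠ []) (hn : v.length ≤ n)
    (ih : IH wt n K v) (O : List Vt) (hO : ∀ x ∈ O, x ∉ below v) (Z : Set Vt) (hp : v.tail ∉ Z)
    (m e : ℕ) (c : Fin 4 → Fin 7) :
    HH n K v O Z (m + 1) e c ≤ (1 / 5) * HH n K v O Z m (e + 1) c +
      (1 / 5) * ∑ i : Fin 4, ∑ u : Fin 7, ∑ j ∈ range 4,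
        wt (c i) j u * HH n K v O Z (m + j) e (Function.update c i u) := by
  have hpt := tail_notMem_Hs v Z c hp
  have hst := FT_step_in n K v hv hn (List.replicate m v ++ (List.replicate e v.tail ++ O)) (Hs v Z c)
  have h1 : arr n K v.tail (List.replicate m v ++ (List.replicate e v.tail ++ O)) (Hs v Z c) =
      FT n K (List.replicate m v ++ (List.replicate (e + 1) v.tail ++ O)) (Hs v Z c) := by
    rw [arr_out _ _ _ _ _ hpt]
    apply FT_perm
    rw [List.replicate_succ, List.cons_append]
    exact List.perm_middle.symm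
  have h2 : ∀ i : Fin 4, arr n K (i :: v) (List.replicate m v ++ (List.replicate e v.tail ++ O)) (Hs v Z c) +
      e * rt v.tail ≤ ∑ u : Fin 7, ∑ j ∈ range 4,
        wt (c i) j u * HH n K v O Z (m + j) e (Function.update c i u) := by
    intro i
    have h3 := ih i _ (Hs v Z c) (c i) (notBelow_list v O hO m e i) (self_notMem_Hs v Z c)
      (Hs_inter v Z c i)
    have h4 : ∑ j ∈ range 4, ∑ u : Fin 7, wt (c i) j u *
      (FT n K (List.replicate j v ++ (List.replicate m v ++ (List.replicate e v.tail ++ O)))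
        (Hs v Z c \ below (i :: v) ∪ conf (i :: v) u) + j * rt v) + e * rt v.tail =
        ∑ u : Fin 7, ∑ j ∈ range 4,
        wt (c i) j u * HH n K v O Z (m + j) e (Function.update c i u) := by
      rw [Finset.sum_comm (s := (Finset.univ : Finset (Fin 7)))]
      conv_lhs => rw [← sum_wt W (c i) (e * rt v.tail)]
      rw [← Finset.sum_add_distrib]
      apply Finset.sum_congr rfl
      intro j _
      rw [← Finset.sum_add_distrib]
      apply Finset.sum_congr rfl
      intro u _
      rw [Hs_update, rep_append, rt_ne hv, HH]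
      ring
    linarith
  have h5 : HH n K v O Z (m + 1) e c =
      FT n K (v :: (List.replicate m v ++ (List.replicate e v.tail ++ O))) (Hs v Z c) + e * rt v.tail := by
    rw [HH, List.replicate_succ, List.cons_append]
  have h6 : HH n K v O Z m (e + 1) c =
      FT n K (List.replicate m v ++ (List.replicate (e + 1) v.tail ++ O)) (Hs v Z c) +
        (e + 1) * rt v.tail := by
    rw [HH]
    push_cast
    ring
  have h7 : ∑ i : Fin 4, arr n K (i :: v) (List.replicate m v ++ (List.replicate e v.tail ++ O)) (Hs v Z c) +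
      4 * (e * rt v.tail) ≤ ∑ i : Fin 4, ∑ u : Fin 7, ∑ j ∈ range 4,
        wt (c i) j u * HH n K v O Z (m + j) e (Function.update c i u) := by
    have h8 := Finset.sum_le_sum (fun (i : Fin 4) (_ : i ∈ Finset.univ) => h2 i)
    rw [Finset.sum_add_distrib] at h8
    simpa using h8
  rw [h5, h6]
  rw [h1] at hst
  linarith

lemma Hs_mono (v : Vt) (Z : Set Vt) (c c' : Fin 4 → Fin 7)
    (h : ∀ i, conf (i :: v) (c i) ⊆ conf (i :: v) (c' i)) : Hs v Z c ⊆ Hs v Z c' := by
  intro x hx
  rw [mem_Hs] at hx ⊢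
  rcases hx with h1 | ⟨i, h1⟩
  · exact Or.inl h1
  · exact Or.inr ⟨i, h i h1⟩

lemma sw_image (v : Vt) (Z : Set Vt) (c : Fin 4 → Fin 7) (σ : Equiv.Perm (Fin 4)) :
    sw v σ '' Hs v Z (c ∘ σ) = Hs v Z c := by
  have hfix : ∀ x, x ∉ below v → sw v σ x = x := by
    intro x hx
    apply sw_fix
    rintro l i rfl
    exact hx ((List.suffix_cons i v).trans (List.suffix_append _ _))
  ext x
  constructor
  · rintro ⟨y, hy, rfl⟩
    rw [mem_Hs] at hy ⊢
    rcases hy with ⟨h1, h2⟩ | ⟨i, p, rfl, hp⟩
    · left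
      rw [hfix y h2]
      exact ⟨h1, h2⟩
    · right
      refine ⟨σ i, p, ?_, hp⟩
      rw [sw_child]
  · intro hx
    rw [mem_Hs] at hx
    rcases hx with ⟨h1, h2⟩ | ⟨i, p, rfl, hp⟩
    · exact ⟨x, (mem_Hs _ _ _ _).2 (Or.inl ⟨h1, h2⟩), hfix x h2⟩
    · refine ⟨p.reverse ++ σ.symm i :: v, (mem_Hs _ _ _ _).2 (Or.inr ⟨σ.symm i, p, rfl, ?_⟩), ?_⟩
      · simpa using hp
      · rw [sw_child]
        simp

lemma HH_symm (n K : ℕ) (v : Vt) (O : List Vt) (hO : ∀ x ∈ O, x ∉ below v) (Z : Set Vt)
    (m e : ℕ) (c : Fin 4 → Fin 7) (σ : Equiv.Perm (Fin 4)) :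
    HH n K v O Z m e (c ∘ σ) = HH n K v O Z m e c := by
  unfold HH
  congr 1
  rw [← sw_image v Z c σ]
  symm
  apply FT_sw
  intro x hx l i hxi
  have hb : x ∈ below (i :: v) := by
    rw [hxi]
    exact List.suffix_append _ _
  rcases List.mem_append.1 hx with h | h
  · rw [List.eq_of_mem_replicate h] at hb
    exact not_below_child v i hb
  · rcases List.mem_append.1 h with h | h
    · rw [List.eq_of_mem_replicate h] at hb
      exact tail_not_below_child v i hb
    · exact hO x h (child_below v i hb)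

/-- the claim at `v` from the claim at its children -/
lemma arrive_step {wt : Fin 7 → ℕ → Fin 7 → ℝ} (W : Wts wt) (n K : ℕ) (v : Vt) (hv : v ≠ [])
    (hn : v.length ≤ n) (ih : IH wt n K v) (t : Fin 7) (O : List Vt) (hO : ∀ x ∈ O, x ∉ below v)
    (Z : Set Vt) (hp : v.tail ∉ Z) (hZ : Z ∩ below v = conf v t) :
    arr n K v O Z ≤ ∑ j ∈ range 4, ∑ u : Fin 7, wt t j u *
      (FT n K (List.replicate j v.tail ++ O) (Z \ below v ∪ conf v u) + j * rt v.tail) := by
  obtain ⟨hc0, hct⟩ := W.cert (HH n K v O Z) (GG n K v O Z) ((((ball n).card : ℝ) + 1) * K)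
    (fun m e c => HH_step W n K v hv hn ih O hO Z hp m e c)
    (by
      intro e c u hu h
      unfold HH GG
      rw [List.replicate_zero, List.nil_append]
      have h1 : Hs v Z c ⊆ Z \ below v ∪ conf v u := by
        rw [conf_ne v u hu]
        exact Hs_mono v Z c (rep u) (fun i => h i (i :: v))
      have h2 := FT_mono_set n K (List.replicate e v.tail ++ O) h1
      linarith)
    (fun m e c σ => HH_symm n K v O hO Z m e c σ)
    (by
      intro m e c
      unfold HH
      rw [List.replicate_succ, List.cons_append]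
      have h2 := FT_mono_cons n K v (List.replicate m v ++ (List.replicate e v.tail ++ O)) (Hs v Z c)
      linarith)
    (by
      intro m e c
      unfold HH
      rw [List.replicate_succ, List.replicate_succ, List.cons_append, List.cons_append]
      have h2 := FT_sub n K v v (List.replicate m v ++ (List.replicate e v.tail ++ O)) (Hs v Z c)
      linarith)
    (by
      intro m e c i u u' h
      unfold HH
      have h1 : Hs v Z (Function.update c i u) ⊆ Hs v Z (Function.update c i u') := by
        apply Hs_mono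
        intro j
        by_cases hj : j = i
        · subst hj
          rw [Function.update_self, Function.update_self]
          exact h _
        · rw [Function.update_of_ne hj, Function.update_of_ne hj]
      have h2 := FT_mono_set n K (List.replicate m v ++ (List.replicate e v.tail ++ O)) h1
      linarith)
    (by
      intro e u
      unfold GG
      rw [List.replicate_succ, List.cons_append]
      have h2 := FT_mono_cons n K v.tail (List.replicate e v.tail ++ O) (Z \ below v ∪ conf v u)
      have h3 := rt_nonneg v.tail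
      push_cast
      linarith)
    (by
      intro e u
      unfold GG
      rw [List.replicate_succ, List.replicate_succ, List.cons_append, List.cons_append]
      have h2 := FT_sub n K v.tail v.tail (List.replicate e v.tail ++ O) (Z \ below v ∪ conf v u)
      push_cast
      linarith)
    (by
      intro e u u' _ _ h
      unfold GG
      have h2 := FT_mono_set n K (List.replicate e v.tail ++ O)
        (Set.union_subset_union_right (Z \ below v) (h v))
      linarith)
    (by
      intro m e c u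
      unfold HH GG
      have h2 := FT_replicate_le n K v m (List.replicate e v.tail ++ O) (Hs v Z c)
      have h3 : FT n K (List.replicate e v.tail ++ O) (Hs v Z c) ≤
          FT n K (List.replicate e v.tail ++ O) (Z \ below v ∪ conf v u) + ((ball n).card : ℝ) * K :=
        F_le_set (stepT n) rt K (ball n) rt_nonneg rt_le_one _ _ _
      have h4 : (0 : ℝ) ≤ K := Nat.cast_nonneg K
      nlinarith)
  by_cases ht : t = 0
  · subst ht
    rw [conf_zero] at hZ
    have hvZ : v ∈ Z := by
      have : v ∈ Z ∩ below v := by rw [hZ]; exact self_mem_below v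
      exact this.1
    rw [arr_in n K v O Z hvZ hn]
    have hs : Z \ {v} = Hs v Z (fun _ => 0) := by
      ext x
      rw [mem_Hs, Set.mem_sdiff, Set.mem_singleton_iff]
      constructor
      · rintro ⟨h1, h2⟩
        by_cases hb : x ∈ below v
        · obtain ⟨i, hi⟩ := below_split hb h2
          exact Or.inr ⟨i, by rw [conf_zero]; exact hi⟩
        · exact Or.inl ⟨h1, hb⟩
      · rintro (⟨h1, h2⟩ | ⟨i, hi⟩)
        · exact ⟨h1, fun h3 => h2 (by rw [h3]; exact self_mem_below v)⟩
        · rw [conf_zero] at hi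
          have h3 : x ∈ Z ∩ below v := by rw [hZ]; exact child_below v i hi
          exact ⟨h3.1, fun h4 => not_below_child v i (by rw [h4] at hi; exact hi)⟩
    rw [hs]
    have h5 : HH n K v O Z 2 0 (fun _ => 0) = FT n K (v :: v :: O) (Hs v Z (fun _ => 0)) := by
      unfold HH
      simp [List.replicate_succ]
    rw [← h5]
    exact hc0
  · have hvZ : v ∉ Z := by
      intro h
      have h1 : v ∈ conf v t := by rw [← hZ]; exact ⟨h, self_mem_below v⟩
      obtain ⟨p, hp1, hp2⟩ := h1
      have h2 : p = [] := by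
        have := congrArg List.length hp1
        rw [List.length_append, List.length_reverse] at this
        exact List.length_eq_zero_iff.1 (by omega)
      subst h2
      exact ht hp2
    rw [arr_out n K v O Z hvZ]
    have hs : Z = Hs v Z (rep t) := by
      ext x
      rw [mem_Hs]
      have h1 : (∃ i, x ∈ conf (i :: v) (rep t i)) ↔ x ∈ Z ∧ x ∈ below v := by
        rw [← Set.mem_inter_iff, hZ, conf_ne v t ht, Set.mem_iUnion]
      rw [h1]
      tauto
    have h5 : HH n K v O Z 1 0 (rep t) = FT n K (v :: O) Z := by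
      unfold HH
      rw [← hs]
      simp [List.replicate_succ]
    rw [← h5]
    exact hct t ht

end PkgT

open PkgT in
/-- the main claim -/
theorem arrive (wt : Fin 7 → ℕ → Fin 7 → ℝ) (W : Wts wt) (n K : ℕ) (v : Vt) (hv : v ≠ []) (hn : v.length ≤ n + 1)
    (t : Fin 7) (O : List Vt) (hO : ∀ x ∈ O, x ∉ below v) (Z : Set Vt) (hp : v.tail ∉ Z) (hZ : Z ∩ below v = conf v t) :
    arr n K v O Z ≤ ∑ j ∈ range 4, ∑ u : Fin 7, wt t j u *
      (FT n K (List.replicate j v.tail ++ O) (Z \ below v ∪ conf v u) + j * rt v.tail) := by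
  obtain ⟨d, hd⟩ : ∃ d, v.length + d = n + 1 := ⟨n + 1 - v.length, by omega⟩
  induction d generalizing v t O Z with
  | zero =>
    rw [arr_boundary n K v O Z (by omega)]
    have h1 : ∀ j u, wt t j u * FT n K O Z ≤ wt t j u *
        (FT n K (List.replicate j v.tail ++ O) (Z \ below v ∪ conf v u) + j * rt v.tail) := by
      intro j u
      apply mul_le_mul_of_nonneg_left _ (W.nonneg t j u)
      have h2 : FT n K O Z = FT n K O (Z \ below v ∪ conf v u) := by
        apply FT_congr
        intro x hx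
        have hxb : x ∉ below v := fun h => by
          have := length_le_of_below h
          omega
        rw [Set.mem_union, Set.mem_sdiff]
        constructor
        · intro h; exact Or.inl ⟨h, hxb⟩
        · rintro (h | h)
          · exact h.1
          · exact absurd (conf_sub _ _ h) hxb
      have h3 := FT_replicate_mono n K v.tail j O (Z \ below v ∪ conf v u)
      have h4 := rt_nonneg v.tail
      have h5 : (0 : ℝ) ≤ j := Nat.cast_nonneg j
      have h6 := mul_nonneg h5 h4
      linarith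
    calc FT n K O Z = ∑ j ∈ range 4, ∑ u : Fin 7, wt t j u * FT n K O Z := (sum_wt W t _).symm
      _ ≤ _ := Finset.sum_le_sum (fun j _ => Finset.sum_le_sum (fun u _ => h1 j u))
  | succ d ihd =>
    apply arrive_step W n K v hv (by omega) _ t O hO Z hp hZ
    intro i O' Z' t' h1 h2 h3
    exact ihd (i :: v) (by simp) (by simp only [List.length_cons]; omega) t' O' h1 Z' h2 h3
      (by simp only [List.length_cons]; omega)

namespace PkgT

lemma FT_sub_replicate (n K : ℕ) (x : Vt) (Z : Set Vt) (j : ℕ) :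
    FT n K (List.replicate (j + 1) x) Z ≤ FT n K (List.replicate j x) Z + FT n K [x] Z := by
  induction j with
  | zero => simp [FT_nil]
  | succ j ih =>
    have h := FT_sub n K x x (List.replicate j x) Z
    rw [List.replicate_succ, List.replicate_succ] at *
    linarith

lemma FT_le_mul (n K : ℕ) (x : Vt) (Z : Set Vt) (j : ℕ) :
    FT n K (List.replicate j x) Z ≤ j * FT n K [x] Z := by
  induction j with
  | zero => simp [FT_nil]
  | succ j ih =>
    have h := FT_sub_replicate n K x Z j
    push_cast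
    linarith

end PkgT

open PkgT in
/-- the bound at the root -/
theorem root_bound (wt : Fin 7 → ℕ → Fin 7 → ℝ) (W : Wts wt) (n K : ℕ) : FT n K [[]] {v | v ≠ []} ≤ 50 := by
  have hstep : ∀ (ρ : ℝ), (∀ c, FT n K [[]] (Hs [] ∅ c) ≤ ρ) → ∀ c, 
      FT n K [[]] (Hs [] ∅ c) ≤ 49 / 50 * (ρ + 1) := by
    intro ρ hρ c
    have hρ0 : 0 ≤ ρ := (FT_nonneg n K [[]] (Hs [] ∅ c)).trans (hρ c)
    refine (FT_step_root n K [] (Hs [] ∅ c)).trans ?_
    have h1 : ∀ i : Fin 4, arr n K [i] [] (Hs [] ∅ c) ≤ 49 / 50 * (ρ + 1) := by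
      intro i
      have h2 := arrive wt W n K [i] (by simp) (by simp) (c i) [] (by simp) (Hs [] ∅ c)
        (self_notMem_Hs [] ∅ c) (Hs_inter [] ∅ c i)
      refine h2.trans ?_
      have h3 : ∀ j u, wt (c i) j u * (FT n K (List.replicate j ([i] : Vt).tail ++ [])
          (Hs [] ∅ c \ below [i] ∪ conf [i] u) + j * rt ([i] : Vt).tail) ≤
          ((j : ℝ) * wt (c i) j u) * (ρ + 1) := by
        intro j u
        rw [Hs_update, List.append_nil, List.tail_cons]
        have h4 := FT_le_mul n K [] (Hs [] ∅ (Function.update c i u)) j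
        have h5 := hρ (Function.update c i u)
        have h6 : (0 : ℝ) ≤ j := Nat.cast_nonneg j
        have h7 : FT n K (List.replicate j []) (Hs [] ∅ (Function.update c i u)) ≤ j * ρ :=
          h4.trans (mul_le_mul_of_nonneg_left h5 h6)
        have h8 : rt ([] : Vt) = 1 := by simp [rt]
        rw [h8]
        have h9 := W.nonneg (c i) j u
        have h10 := mul_le_mul_of_nonneg_left h7 h9
        nlinarith
      calc _ ≤ ∑ j ∈ range 4, ∑ u : Fin 7, ((j : ℝ) * wt (c i) j u) * (ρ + 1) :=
            Finset.sum_le_sum (fun j _ => Finset.sum_le_sum (fun u _ => h3 j u))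
        _ = (∑ j ∈ range 4, ∑ u : Fin 7, (j : ℝ) * wt (c i) j u) * (ρ + 1) := by
            rw [Finset.sum_mul]
            apply Finset.sum_congr rfl
            intro j _
            rw [Finset.sum_mul]
        _ ≤ 49 / 50 * (ρ + 1) := mul_le_mul_of_nonneg_right (W.mean (c i)) (by linarith)
    have h2 := Finset.sum_le_sum (fun (i : Fin 4) (_ : i ∈ Finset.univ) => h1 i)
    simp only [Finset.sum_const, Finset.card_univ, Fintype.card_fin, nsmul_eq_mul] at h2
    push_cast at h2
    linarith
  obtain ⟨c0, hc0⟩ := Finite.exists_max (fun c : Fin 4 → Fin 7 => FT n K [[]] (Hs [] ∅ c))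
  have h1 := hstep _ hc0 c0
  have h2 : FT n K [[]] (Hs [] ∅ c0) ≤ 49 := by linarith
  have h3 : ({v | v ≠ []} : Set Vt) = Hs [] ∅ (fun _ => 0) := by
    ext x
    rw [mem_Hs, Set.mem_ofPred_eq]
    constructor
    · intro h
      obtain ⟨i, hi⟩ := below_split (v := []) (x := x) List.nil_suffix h
      exact Or.inr ⟨i, by rw [conf_zero]; exact hi⟩
    · rintro (⟨h, _⟩ | ⟨i, hi⟩) hx
      · exact h
      · rw [conf_zero, hx] at hi
        exact not_below_child [] i hi
  rw [h3]
  exact (hc0 _).trans (by linarith)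

end Pool.Agent.U140.FM
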